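import Pool.Agent.helper68.SF.SpecE

/-! Project SF, module DX: integral of an `x`-derivative over `Dm`. -/

set_option autoImplicit false

namespace SF

open MeasureTheory Set
open scoped ContDiff

theorem DX_meas : MeasurableSet Dm := by
  unfold Dm
  measurability

theorem DX_slice (y : ℝ) (hy : 0 < y) (x : ℝ) :
    (x, y) ∈ Dm ↔ x ∈ Ioo (√(1 - y ^ 2)) (1 / 2) := by
  constructor
  · rintro ⟨h1, h2, h3, h4⟩
    have h1' : 0 < x := h1
    have h4' : 1 < x ^ 2 + y ^ 2 := h4
    exact ⟨(Real.sqrt_lt' h1').mpr (by linarith), h2⟩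
  · rintro ⟨h1, h2⟩
    have hx : 0 < x := lt_of_le_of_lt (Real.sqrt_nonneg _) h1
    have h3 := (Real.sqrt_lt' hx).mp h1
    refine ⟨hx, h2, hy, ?_⟩
    show 1 < x ^ 2 + y ^ 2
    linarith

theorem DX : DX_stmt := by
  intro F F' hc hd h0 h1 hi
  rw [← integral_indicator DX_meas]
  have hi2 : Integrable (Dm.indicator F') (volume.prod volume) :=
    (integrable_indicator_iff DX_meas).mpr hi
  have hF := integral_prod_symm (Dm.indicator F') hi2
  have hv : ∫ p, Dm.indicator F' p = ∫ p, Dm.indicator F' p ∂(volume.prod volume) := rfl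
  rw [hv, hF]
  have hin : ∀ y : ℝ, ∫ x, Dm.indicator F' (x, y) = 0 := by
    intro y
    by_cases hy : 0 < y
    · have e : (fun x => Dm.indicator F' (x, y)) =
          (Ioo (√(1 - y ^ 2)) (1 / 2)).indicator (fun x => F' (x, y)) := by
        funext x
        by_cases hx : (x, y) ∈ Dm
        · rw [indicator_of_mem hx, indicator_of_mem ((DX_slice y hy x).mp hx)]
        · rw [indicator_of_notMem hx, indicator_of_notMem fun h => hx ((DX_slice y hy x).mpr h)]
      rw [e, integral_indicator measurableSet_Ioo]
      rcases le_or_gt (1 / 2) (√(1 - y ^ 2)) with h | h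
      · rw [Ioo_eq_empty (not_lt.mpr h)]
        simp
      · rw [← integral_Ioc_eq_integral_Ioo, ← intervalIntegral.integral_of_le h.le]
        have hcy : Continuous (fun x => F' (x, y)) := by
          rw [← continuousOn_univ]
          exact hc.comp (Continuous.continuousOn (by fun_prop)) (fun x _ => hy)
        rw [intervalIntegral.integral_eq_sub_of_hasDerivAt (fun x _ => hd x y hy)
          (hcy.intervalIntegrable _ _)]
        have e1 : F (√(1 - y ^ 2), y) = 0 := by
          rcases le_or_gt 1 y with h2 | h2
          · rw [Real.sqrt_eq_zero_of_nonpos (by nlinarith)]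
            exact (h0 y hy).1
          · apply h1 _ _ hy
            rw [Real.sq_sqrt (by nlinarith)]
            ring
        rw [(h0 y hy).2, e1, sub_zero]
    · have e : (fun x => Dm.indicator F' (x, y)) = fun _ => 0 := by
        funext x
        rw [indicator_of_notMem]
        rintro ⟨-, -, h3, -⟩
        exact hy h3
      rw [e]
      simp
  rw [show (fun y : ℝ => ∫ x, Dm.indicator F' (x, y)) = fun _ => (0 : ℝ) from funext hin]
  simp

end SF
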