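import Pool.Agent.helper68.SF.SpecS

/-! Project SF, module JW: the physical cone sum with the weights below a node. -/

set_option autoImplicit false

namespace SF

open MeasureTheory Set
open scoped ContDiff

/-- splitting a sum over words by the first letter -/
theorem JW_split (f : List Bool → ℝ) (hf : (Function.support f).Finite) :
    ∑ᶠ w, f w = f [] + ∑ᶠ w, f (true :: w) + ∑ᶠ w, f (false :: w) := by
  have hu : (univ : Set (List Bool)) =
      {[]} ∪ (range (List.cons true) ∪ range (List.cons false)) := by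
    ext w
    simp only [mem_univ, mem_union, mem_singleton_iff, mem_range, true_iff]
    rcases w with _ | ⟨b, w⟩
    · exact Or.inl rfl
    · right
      cases b
      · exact Or.inr ⟨w, rfl⟩
      · exact Or.inl ⟨w, rfl⟩
  have hd1 : Disjoint ({[]} : Set (List Bool)) (range (List.cons true) ∪ range (List.cons false)) := by
    rw [disjoint_singleton_left]
    rintro (⟨w, hw⟩ | ⟨w, hw⟩)
    · exact List.cons_ne_nil _ _ hw
    · exact List.cons_ne_nil _ _ hw
  have hd2 : Disjoint (range (List.cons true)) (range (List.cons false)) := by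
    rw [Set.disjoint_left]
    rintro _ ⟨w, rfl⟩ ⟨w', hw'⟩
    have := (List.cons.inj hw').1
    exact Bool.false_ne_true this
  rw [← finsum_mem_univ, hu, finsum_mem_union' hd1 (hf.subset inter_subset_right)
    (hf.subset inter_subset_right), finsum_mem_union' hd2 (hf.subset inter_subset_right)
    (hf.subset inter_subset_right), finsum_mem_singleton, finsum_mem_range (List.cons_injective),
    finsum_mem_range (List.cons_injective), add_assoc]

theorem JW_md_true (hBW : BW_stmt) (w : List Bool) :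
    md (true :: w) = ((md w).1 + (md w).2, (md w).2) := by
  have h := hBW.2.1 [true] w
  have e : (bw [true]) = ((1, 0), (1, 1)) := rfl
  rw [e] at h
  have e2 : [true] ++ w = true :: w := rfl
  rw [e2] at h
  rw [h]
  simp

theorem JW_md_false (hBW : BW_stmt) (w : List Bool) :
    md (false :: w) = ((md w).1, (md w).1 + (md w).2) := by
  have h := hBW.2.1 [false] w
  have e : (bw [false]) = ((1, 1), (0, 1)) := rfl
  rw [e] at h
  have e2 : [false] ++ w = false :: w := rfl
  rw [e2] at h
  rw [h]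
  simp

theorem JW (hPHI : PHI_stmt) (hBW : BW_stmt) (hBR : BR_stmt) (hJS : JS_stmt) : JW_stmt := by
  intro g hg
  obtain ⟨-, hPs, -, hP1, -, K, hK, hKb⟩ := hPHI g hg
  have hmd : ∀ w, (1 : ℝ) ≤ (md w).1 ∧ (1 : ℝ) ≤ (md w).2 := by
    intro w
    obtain ⟨-, -, -, -, -, h1, h2⟩ := hBW.1 w
    exact ⟨by exact_mod_cast h1, by exact_mod_cast h2⟩
  have hfin : (({w : List Bool | w.length < 4}) : Set (List Bool)).Finite :=
    List.finite_length_lt Bool 4
  set N : ℝ := (hfin.toFinset.card : ℝ) with hN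
  have hN0 : 0 ≤ N := Nat.cast_nonneg _
  have hLip : ∀ x y : ℝ, |Ph g x - Ph g y| ≤ K * |x - y| := by
    intro x y
    have h := Convex.norm_image_sub_le_of_norm_deriv_le (f := Ph g) (s := univ) (C := K)
      (fun z _ => (hPs.differentiable (by simp)) z) (fun z _ => (hKb z).2.2.2) convex_univ
      (mem_univ y) (mem_univ x)
    exact h
  have hsupp : ∀ (w : List Bool) (l l' : ℝ), 0 < l → 0 < l' →
      (Function.support fun w' => pw (w ++ w') * Ph g ((md w').1 * l + (md w').2 * l')).Finite := by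
    intro w l l' hl hl'
    refine (hJS g hg l l' hl hl').1.subset ?_
    intro w' hw' h0
    apply hw'
    show _ * _ = (0 : ℝ)
    rw [h0, mul_zero]
  -- the Lipschitz bound
  have hmain : ∀ (w : List Bool) (l1 l1' l2 l2' T : ℝ), 0 < l1 → 0 < l1' → 0 < l2 → 0 < l2' →
      1 / l1 ≤ T → 1 / l1' ≤ T → 1 / l2 ≤ T → 1 / l2' ≤ T →
      |jpw g w l1 l1' - jpw g w l2 l2'| ≤ K * (|l1 - l2| + |l1' - l2'|) * T ^ 3 := by
    intro w l1 l1' l2 l2' T h1 h1' h2 h2' hT1 hT1' hT2 hT2'
    have hT0 : 0 < T := lt_of_lt_of_le (by positivity) hT1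
    have hbig : ∀ l : ℝ, 0 < l → 1 / l ≤ T → 1 ≤ T * l := by
      intro l hl h
      rw [div_le_iff₀ hl] at h
      exact h
    -- the words with small mediants
    have hW : {w' : List Bool | ((md w').1 : ℝ) ≤ T ∧ ((md w').2 : ℝ) ≤ T}.Finite ∧
        (({w' : List Bool | ((md w').1 : ℝ) ≤ T ∧ ((md w').2 : ℝ) ≤ T}.ncard : ℕ) : ℝ) ≤ T ^ 2 := by
      have hinj : InjOn md (univ : Set (List Bool)) := hBW.2.2.injOn
      have himg : ∀ w' ∈ {w' : List Bool | ((md w').1 : ℝ) ≤ T ∧ ((md w').2 : ℝ) ≤ T},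
          md w' ∈ ((Finset.Icc (1 : ℤ) ⌊T⌋ ×ˢ Finset.Icc (1 : ℤ) ⌊T⌋ : Finset (ℤ × ℤ)) : Set (ℤ × ℤ)) := by
        intro w' hw'
        obtain ⟨ha, hb⟩ := hw'
        have h3 := hmd w'
        rw [Finset.mem_coe, Finset.mem_product, Finset.mem_Icc, Finset.mem_Icc]
        exact ⟨⟨by exact_mod_cast h3.1, Int.le_floor.mpr ha⟩, by exact_mod_cast h3.2, Int.le_floor.mpr hb⟩
      have hf : {w' : List Bool | ((md w').1 : ℝ) ≤ T ∧ ((md w').2 : ℝ) ≤ T}.Finite :=
        Set.Finite.of_finite_image
          ((Finset.finite_toSet (Finset.Icc (1 : ℤ) ⌊T⌋ ×ˢ Finset.Icc (1 : ℤ) ⌊T⌋)).subset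
            (image_subset_iff.mpr himg)) (hinj.mono (subset_univ _))
      refine ⟨hf, ?_⟩
      have h4 := Set.ncard_le_ncard_of_injOn md himg (hinj.mono (subset_univ _))
        (Finset.finite_toSet _)
      rw [Set.ncard_coe_finset, Finset.card_product, Int.card_Icc] at h4
      have h5 : (((⌊T⌋ + 1 - 1).toNat : ℕ) : ℝ) ≤ T := by
        rw [add_sub_cancel_right]
        have h6 : (0 : ℤ) ≤ ⌊T⌋ := Int.floor_nonneg.mpr hT0.le
        have h7 : (((⌊T⌋).toNat : ℕ) : ℝ) = ((⌊T⌋ : ℤ) : ℝ) := by
          have := Int.toNat_of_nonneg h6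
          exact_mod_cast this
        rw [h7]
        exact Int.floor_le T
      calc (({w' : List Bool | ((md w').1 : ℝ) ≤ T ∧ ((md w').2 : ℝ) ≤ T}.ncard : ℕ) : ℝ)
          ≤ (((⌊T⌋ + 1 - 1).toNat * (⌊T⌋ + 1 - 1).toNat : ℕ) : ℝ) := by exact_mod_cast h4
        _ = (((⌊T⌋ + 1 - 1).toNat : ℕ) : ℝ) * (((⌊T⌋ + 1 - 1).toNat : ℕ) : ℝ) := by push_cast; ring
        _ ≤ T * T := mul_le_mul h5 h5 (Nat.cast_nonneg _) hT0.le
        _ = T ^ 2 := by ring
    obtain ⟨hWf, hWc⟩ := hW
    -- outside of these words both terms vanish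
    have hz : ∀ (l l' : ℝ), 0 < l → 0 < l' → 1 / l ≤ T → 1 / l' ≤ T → ∀ w' : List Bool,
        ¬ (((md w').1 : ℝ) ≤ T ∧ ((md w').2 : ℝ) ≤ T) → Ph g ((md w').1 * l + (md w').2 * l') = 0 := by
      intro l l' hl hl' hTl hTl' w' hw'
      apply hP1
      have h3 := hmd w'
      by_cases ha : ((md w').1 : ℝ) ≤ T
      · have hb : T < ((md w').2 : ℝ) := not_le.mp fun hb => hw' ⟨ha, hb⟩
        have h4 := mul_le_mul_of_nonneg_right hb.le hl'.le
        have h5 := hbig l' hl' hTl'
        have h6 : 0 ≤ ((md w').1 : ℝ) * l := mul_nonneg (by linarith) hl.le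
        linarith
      · have h4 := mul_le_mul_of_nonneg_right (not_le.mp ha).le hl.le
        have h5 := hbig l hl hTl
        have h6 : 0 ≤ ((md w').2 : ℝ) * l' := mul_nonneg (by linarith) hl'.le
        linarith
    have hsum : ∀ (l l' : ℝ), 0 < l → 0 < l' → 1 / l ≤ T → 1 / l' ≤ T →
        jpw g w l l' = ∑ w' ∈ hWf.toFinset, pw (w ++ w') * Ph g ((md w').1 * l + (md w').2 * l') := by
      intro l l' hl hl' hTl hTl'
      unfold jpw
      apply finsum_eq_sum_of_support_subset
      intro w' hw'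
      rw [Finset.mem_coe, Set.Finite.mem_toFinset]
      by_contra h
      apply hw'
      show _ * _ = (0 : ℝ)
      rw [hz l l' hl hl' hTl hTl' w' h, mul_zero]
    rw [hsum l1 l1' h1 h1' hT1 hT1', hsum l2 l2' h2 h2' hT2 hT2', ← Finset.sum_sub_distrib]
    have hterm : ∀ w' ∈ hWf.toFinset,
        |pw (w ++ w') * Ph g ((md w').1 * l1 + (md w').2 * l1') -
          pw (w ++ w') * Ph g ((md w').1 * l2 + (md w').2 * l2')| ≤
        K * (|l1 - l2| + |l1' - l2'|) * T := by
      intro w' hw'
      obtain ⟨ha, hb⟩ := (Set.Finite.mem_toFinset hWf).mp hw'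
      have h3 := hmd w'
      rw [← mul_sub, abs_mul]
      have h4 := (hBR.2.1 (w ++ w')).1
      have h5 := hLip ((md w').1 * l1 + (md w').2 * l1') ((md w').1 * l2 + (md w').2 * l2')
      have h6 : |((md w').1 : ℝ) * l1 + (md w').2 * l1' - ((md w').1 * l2 + (md w').2 * l2')| ≤
          T * (|l1 - l2| + |l1' - l2'|) := by
        have e : ((md w').1 : ℝ) * l1 + (md w').2 * l1' - ((md w').1 * l2 + (md w').2 * l2') =
            (md w').1 * (l1 - l2) + (md w').2 * (l1' - l2') := by ring
        rw [e]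
        refine (abs_add_le _ _).trans ?_
        rw [abs_mul, abs_mul, abs_of_nonneg (show (0 : ℝ) ≤ (md w').1 by linarith),
          abs_of_nonneg (show (0 : ℝ) ≤ (md w').2 by linarith), mul_add]
        exact add_le_add (mul_le_mul_of_nonneg_right ha (abs_nonneg _))
          (mul_le_mul_of_nonneg_right hb (abs_nonneg _))
      calc |pw (w ++ w')| * |Ph g ((md w').1 * l1 + (md w').2 * l1') -
            Ph g ((md w').1 * l2 + (md w').2 * l2')|
          ≤ 1 * (K * (T * (|l1 - l2| + |l1' - l2'|))) :=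
            mul_le_mul h4 (h5.trans (mul_le_mul_of_nonneg_left h6 hK.le)) (abs_nonneg _) zero_le_one
        _ = _ := by ring
    refine (Finset.abs_sum_le_sum_abs _ _).trans ((Finset.sum_le_sum hterm).trans ?_)
    rw [Finset.sum_const, nsmul_eq_mul]
    have hc : ((hWf.toFinset.card : ℕ) : ℝ) ≤ T ^ 2 := by
      rw [← Set.ncard_eq_toFinset_card _ hWf]
      exact hWc
    have h7 : 0 ≤ K * (|l1 - l2| + |l1' - l2'|) * T := by positivity
    calc (hWf.toFinset.card : ℝ) * (K * (|l1 - l2| + |l1' - l2'|) * T)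
        ≤ T ^ 2 * (K * (|l1 - l2| + |l1' - l2'|) * T) := mul_le_mul_of_nonneg_right hc h7
      _ = _ := by ring
  refine ⟨K + N * (2 * K), by positivity, ?_⟩
  intro w l l' hl hl'
  refine ⟨?_, ?_, ?_, ?_, ?_⟩
  · -- the recursion
    have h1 := JW_split (fun w' => pw (w ++ w') * Ph g ((md w').1 * l + (md w').2 * l'))
      (hsupp w l l' hl hl')
    unfold jpw
    rw [h1]
    have e0 : (md []) = (1, 1) := rfl
    have e1 : ∀ w', pw (w ++ true :: w') * Ph g ((md (true :: w')).1 * l + (md (true :: w')).2 * l') =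
        pw (w ++ [true] ++ w') * Ph g ((md w').1 * l + (md w').2 * (l + l')) := by
      intro w'
      rw [JW_md_true hBW, List.append_assoc]
      have e : (((md w').1 + (md w').2 : ℤ) : ℝ) * l + ((md w').2 : ℝ) * l' =
          (md w').1 * l + (md w').2 * (l + l') := by
        push_cast
        ring
      show pw (w ++ true :: w') * Ph g ((((md w').1 + (md w').2 : ℤ) : ℝ) * l + ((md w').2 : ℝ) * l') = _
      rw [e]
      rfl
    have e2 : ∀ w', pw (w ++ false :: w') * Ph g ((md (false :: w')).1 * l + (md (false :: w')).2 * l') =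
        pw (w ++ [false] ++ w') * Ph g ((md w').1 * (l + l') + (md w').2 * l') := by
      intro w'
      rw [JW_md_false hBW, List.append_assoc]
      have e : ((md w').1 : ℝ) * l + (((md w').1 + (md w').2 : ℤ) : ℝ) * l' =
          (md w').1 * (l + l') + (md w').2 * l' := by
        push_cast
        ring
      show pw (w ++ false :: w') * Ph g (((md w').1 : ℝ) * l + (((md w').1 + (md w').2 : ℤ) : ℝ) * l') = _
      rw [e]
      rfl
    rw [finsum_congr e1, finsum_congr e2, e0, List.append_nil]
    simp only [Int.cast_one, one_mul]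
  · -- comparison
    have h1 : jpw g w l l' - jp g l l' =
        ∑ᶠ w', (pw (w ++ w') - pw w') * Ph g ((md w').1 * l + (md w').2 * l') := by
      have hs0 : (Function.support fun w' => pw w' *
          Ph g ((md w').1 * l + (md w').2 * l')).Finite := hsupp [] l l' hl hl'
      unfold jpw jp
      rw [← finsum_sub_distrib (hsupp w l l' hl hl') hs0]
      refine finsum_congr fun w' => ?_
      ring
    rw [h1, finsum_eq_sum_of_support_subset (s := hfin.toFinset)]
    · refine (Finset.abs_sum_le_sum_abs _ _).trans ?_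
      have h2 : ∀ w' ∈ hfin.toFinset,
          |(pw (w ++ w') - pw w') * Ph g ((md w').1 * l + (md w').2 * l')| ≤ 2 * K := by
        intro w' _
        rw [abs_mul]
        have h3 := (hBR.2.1 (w ++ w')).1
        have h4 := (hBR.2.1 w').1
        have h5 : |pw (w ++ w') - pw w'| ≤ 2 := by
          refine (abs_sub _ _).trans ?_
          linarith
        exact mul_le_mul h5 (hKb _).2.2.1 (abs_nonneg _) (by norm_num)
      refine (Finset.sum_le_sum h2).trans ?_
      rw [Finset.sum_const, nsmul_eq_mul]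
      linarith
    · intro w' hw'
      rw [Finset.mem_coe, Set.Finite.mem_toFinset]
      by_contra h
      apply hw'
      have h4 : 4 ≤ w'.length := not_lt.mp h
      show _ * _ = (0 : ℝ)
      rw [(hBR.2.2 w w' h4).2, sub_self, zero_mul]
  · -- vanishing
    intro h1
    unfold jpw
    have h2 : ∀ w', pw (w ++ w') * Ph g ((md w').1 * l + (md w').2 * l') = 0 := by
      intro w'
      have h3 := hmd w'
      have h4 := mul_le_mul_of_nonneg_right h3.1 hl.le
      have h5 := mul_le_mul_of_nonneg_right h3.2 hl'.le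
      rw [hP1 _ (by linarith), mul_zero]
    rw [finsum_congr h2, finsum_zero]
  · intro m hm
    have hp1 : 0 < 1 / l := by positivity
    have hp2 : 0 < 1 / l' := by positivity
    have hp3 : 0 < 1 / m := by positivity
    have h1 := hmain w l l' l m (1 + 1 / l + 1 / l' + 1 / m) hl hl' hl hm (by linarith) (by linarith)
      (by linarith) (by linarith)
    rw [sub_self, abs_zero, zero_add] at h1
    refine h1.trans ?_
    have h2 : K * |l' - m| ≤ (K + N * (2 * K)) * |l' - m| :=
      mul_le_mul_of_nonneg_right (by nlinarith [mul_nonneg hN0 hK.le]) (abs_nonneg _)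
    exact mul_le_mul_of_nonneg_right h2 (by positivity)
  · intro m hm
    have hp1 : 0 < 1 / l := by positivity
    have hp2 : 0 < 1 / l' := by positivity
    have hp3 : 0 < 1 / m := by positivity
    have h1 := hmain w l l' m l' (1 + 1 / l + 1 / l' + 1 / m) hl hl' hm hl' (by linarith) (by linarith)
      (by linarith) (by linarith)
    rw [sub_self, abs_zero, add_zero] at h1
    refine h1.trans ?_
    have h2 : K * |l - m| ≤ (K + N * (2 * K)) * |l - m| :=
      mul_le_mul_of_nonneg_right (by nlinarith [mul_nonneg hN0 hK.le]) (abs_nonneg _)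
    exact mul_le_mul_of_nonneg_right h2 (by positivity)

end SF
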