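import Pool.Agent.helper68.SF.SpecE

/-! Project SF, module L2: second derivatives of a test function. -/

set_option autoImplicit false

namespace SF

open MeasureTheory Set
open scoped ContDiff

theorem L2_smx {w : ℝ × ℝ → ℝ} (h : ContDiff ℝ ∞ w) : ContDiff ℝ ∞ (px w) :=
  (h.fderiv_right (m := ∞) (by simp)).clm_apply contDiff_const

theorem L2_smy {w : ℝ × ℝ → ℝ} (h : ContDiff ℝ ∞ w) : ContDiff ℝ ∞ (py w) :=
  (h.fderiv_right (m := ∞) (by simp)).clm_apply contDiff_const

theorem L2_csx {w : ℝ × ℝ → ℝ} (h : HasCompactSupport w) : HasCompactSupport (px w) :=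
  h.fderiv_apply ℝ (1, 0)

theorem L2_csy {w : ℝ × ℝ → ℝ} (h : HasCompactSupport w) : HasCompactSupport (py w) :=
  h.fderiv_apply ℝ (0, 1)

theorem L2_symm {w : ℝ × ℝ → ℝ} (h : ContDiff ℝ ∞ w) : px (py w) = py (px w) := by
  funext p
  have hs : IsSymmSndFDerivAt ℝ w p := (h.contDiffAt).isSymmSndFDerivAt (by
    rw [minSmoothness_of_isRCLikeNormedField]
    exact WithTop.coe_le_coe.mpr (le_top : (2 : ℕ∞) ≤ ⊤))
  have hd : DifferentiableAt ℝ (fderiv ℝ w) p :=
    ((h.fderiv_right (m := ∞) (by simp)).differentiable (by simp)) p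
  have e : ∀ a b : ℝ × ℝ, fderiv ℝ (fun q => fderiv ℝ w q a) p b = fderiv ℝ (fderiv ℝ w) p b a := by
    intro a b
    have h1 := (hd.hasFDerivAt.clm_apply (hasFDerivAt_const a p)).fderiv
    rw [h1]
    simp
  show fderiv ℝ (fun q => fderiv ℝ w q (0, 1)) p (1, 0) =
    fderiv ℝ (fun q => fderiv ℝ w q (1, 0)) p (0, 1)
  rw [e, e]
  exact hs (1, 0) (0, 1)

theorem L2_int {f g : ℝ × ℝ → ℝ} (hf : ContDiff ℝ ∞ f) (hg : ContDiff ℝ ∞ g)
    (hfc : HasCompactSupport f) : Integrable (fun p => f p * g p) :=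
  (hf.continuous.mul hg.continuous).integrable_of_hasCompactSupport hfc.mul_right

theorem L2_partx {f g : ℝ × ℝ → ℝ} (hf : ContDiff ℝ ∞ f) (hg : ContDiff ℝ ∞ g)
    (hfc : HasCompactSupport f) : ∫ p, f p * px g p = -∫ p, px f p * g p :=
  integral_mul_fderiv_eq_neg_fderiv_mul_of_integrable (v := (1, 0))
    (L2_int (L2_smx hf) hg (L2_csx hfc)) (L2_int hf (L2_smx hg) hfc) (L2_int hf hg hfc)
    (fun x _ => (hf.differentiable (by simp)) x) (fun x _ => (hg.differentiable (by simp)) x)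

theorem L2_party {f g : ℝ × ℝ → ℝ} (hf : ContDiff ℝ ∞ f) (hg : ContDiff ℝ ∞ g)
    (hfc : HasCompactSupport f) : ∫ p, f p * py g p = -∫ p, py f p * g p :=
  integral_mul_fderiv_eq_neg_fderiv_mul_of_integrable (v := (0, 1))
    (L2_int (L2_smy hf) hg (L2_csy hfc)) (L2_int hf (L2_smy hg) hfc) (L2_int hf hg hfc)
    (fun x _ => (hf.differentiable (by simp)) x) (fun x _ => (hg.differentiable (by simp)) x)

theorem L2 : L2_stmt := by
  intro v hv hc
  have hx := L2_smx hv
  have hy := L2_smy hv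
  have hcx := L2_csx hc
  have hcy := L2_csy hc
  -- `∫ v_xy² = ∫ v_xx v_yy`
  have h1 : ∫ p, px v p * px (py (py v)) p = -∫ p, px (px v) p * py (py v) p :=
    L2_partx hx (L2_smy hy) hcx
  have h2 : ∫ p, px v p * py (px (py v)) p = -∫ p, py (px v) p * px (py v) p :=
    L2_party hx (L2_smx hy) hcx
  rw [← L2_symm hy, h1, ← L2_symm hv] at h2
  have h3 : ∫ p, px (px v) p * py (py v) p = ∫ p, px (py v) p * px (py v) p := by linarith
  have i1 : Integrable (fun p => px (px v) p * px (px v) p) := L2_int (L2_smx hx) (L2_smx hx) (L2_csx hcx)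
  have i2 : Integrable (fun p => px (py v) p * px (py v) p) := L2_int (L2_smx hy) (L2_smx hy) (L2_csx hcy)
  have i3 : Integrable (fun p => py (py v) p * py (py v) p) := L2_int (L2_smy hy) (L2_smy hy) (L2_csy hcy)
  have i4 : Integrable (fun p => px (px v) p * py (py v) p) := L2_int (L2_smx hx) (L2_smy hy) (L2_csx hcx)
  have key : ∀ f g k F : ℝ × ℝ → ℝ, Integrable f → Integrable g → Integrable k →
      (∀ p, F p = f p + 2 * g p + k p) →
      ∫ p, F p = (∫ p, f p) + 2 * (∫ p, g p) + ∫ p, k p := by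
    intro f g k F hf hg hk hF
    have s1 : ∫ p, (f p + 2 * g p) = (∫ p, f p) + ∫ p, 2 * g p := integral_add hf (hg.const_mul 2)
    have s2 : ∫ p, (f p + 2 * g p + k p) = (∫ p, (f p + 2 * g p)) + ∫ p, k p :=
      integral_add (hf.add (hg.const_mul 2)) hk
    rw [← integral_const_mul, ← s1, ← s2]
    exact integral_congr_ae (Filter.Eventually.of_forall hF)
  have e1 := key _ _ _ (fun p => px (px v) p ^ 2 + 2 * px (py v) p ^ 2 + py (py v) p ^ 2) i1 i2 i3
    (fun p => by ring)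
  have e2 := key _ _ _ (fun p => lap v p ^ 2) i1 i4 i3 (fun p => by simp only [lap]; ring)
  rw [e1, e2, h3]

end SF
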