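import Pool.Agent.helper68.SF.SpecE

/-! Project SF, module RFG: reflection in the unit circle. -/

set_option autoImplicit false

namespace SF

open MeasureTheory Set
open scoped ContDiff

noncomputable section

/-- the reflection -/
def RFG_s (p : ℝ × ℝ) : ℝ × ℝ := (p.1 / (p.1 ^ 2 + p.2 ^ 2), p.2 / (p.1 ^ 2 + p.2 ^ 2))

/-- its derivative -/
def RFG_d (p : ℝ × ℝ) : ℝ × ℝ →L[ℝ] ℝ × ℝ :=
  (Matrix.toLin (.finTwoProd ℝ) (.finTwoProd ℝ)
    !![(p.2 ^ 2 - p.1 ^ 2) / (p.1 ^ 2 + p.2 ^ 2) ^ 2, -(2 * p.1 * p.2) / (p.1 ^ 2 + p.2 ^ 2) ^ 2;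
      -(2 * p.1 * p.2) / (p.1 ^ 2 + p.2 ^ 2) ^ 2, (p.1 ^ 2 - p.2 ^ 2) / (p.1 ^ 2 + p.2 ^ 2) ^ 2]).toContinuousLinearMap

theorem RFG_d_apply (p v : ℝ × ℝ) : RFG_d p v =
    ((p.2 ^ 2 - p.1 ^ 2) / (p.1 ^ 2 + p.2 ^ 2) ^ 2 * v.1 + -(2 * p.1 * p.2) / (p.1 ^ 2 + p.2 ^ 2) ^ 2 * v.2,
      -(2 * p.1 * p.2) / (p.1 ^ 2 + p.2 ^ 2) ^ 2 * v.1 + (p.1 ^ 2 - p.2 ^ 2) / (p.1 ^ 2 + p.2 ^ 2) ^ 2 * v.2) := by
  unfold RFG_d
  rw [Matrix.toLin_finTwoProd_toContinuousLinearMap]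
  simp

theorem RFG_det (p : ℝ × ℝ) (hp : p.1 ^ 2 + p.2 ^ 2 ≠ 0) :
    (RFG_d p).det = -(1 / (p.1 ^ 2 + p.2 ^ 2) ^ 2) := by
  unfold RFG_d
  rw [LinearMap.det_toContinuousLinearMap, LinearMap.det_toLin, Matrix.det_fin_two_of]
  field_simp
  ring

theorem RFG_hd (p : ℝ × ℝ) (hp : p.1 ^ 2 + p.2 ^ 2 ≠ 0) : HasFDerivAt RFG_s (RFG_d p) p := by
  have h1 : HasFDerivAt (fun q : ℝ × ℝ => q.1) (ContinuousLinearMap.fst ℝ ℝ ℝ) p := hasFDerivAt_fst
  have h2 : HasFDerivAt (fun q : ℝ × ℝ => q.2) (ContinuousLinearMap.snd ℝ ℝ ℝ) p := hasFDerivAt_snd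
  have hr := (h1.mul h1).add (h2.mul h2)
  have hp' : p.1 * p.1 + p.2 * p.2 ≠ 0 := by
    rw [← sq, ← sq]
    exact hp
  have hi := (hasDerivAt_inv hp').comp_hasFDerivAt p hr
  have h3 := (h1.mul hi).prodMk (h2.mul hi)
  have e : RFG_s = fun q : ℝ × ℝ => (q.1 * (q.1 * q.1 + q.2 * q.2)⁻¹, q.2 * (q.1 * q.1 + q.2 * q.2)⁻¹) := by
    funext q
    simp only [RFG_s, div_eq_mul_inv, sq]
  rw [e]
  refine HasFDerivAt.congr_fderiv h3 ?_
  ext
  · simp [RFG_d_apply]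
    field_simp
    ring
  · simp [RFG_d_apply]
    field_simp
    ring
  · simp [RFG_d_apply]
    field_simp
    ring
  · simp [RFG_d_apply]
    field_simp
    ring

theorem RFG_inv (p : ℝ × ℝ) (hp : p.1 ^ 2 + p.2 ^ 2 ≠ 0) : RFG_s (RFG_s p) = p := by
  have h : (p.1 / (p.1 ^ 2 + p.2 ^ 2)) ^ 2 + (p.2 / (p.1 ^ 2 + p.2 ^ 2)) ^ 2 =
      1 / (p.1 ^ 2 + p.2 ^ 2) := by
    field_simp
  unfold RFG_s
  simp only [h]
  apply Prod.ext
  · show p.1 / (p.1 ^ 2 + p.2 ^ 2) / (1 / (p.1 ^ 2 + p.2 ^ 2)) = p.1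
    field_simp
  · show p.2 / (p.1 ^ 2 + p.2 ^ 2) / (1 / (p.1 ^ 2 + p.2 ^ 2)) = p.2
    field_simp

theorem RFG : RFG_stmt := by
  intro h A hh hs hA hAp hint
  have hU : IsOpen {p : ℝ × ℝ | 0 < p.2} := isOpen_lt continuous_const continuous_snd
  set E : ℝ × ℝ → ℝ := fun p => h p ^ 2 + px h p ^ 2 + py h p ^ 2 with hE
  have hE0 : ∀ p, 0 ≤ E p := fun p => by
    simp only [hE]
    positivity
  have hr : ∀ p : ℝ × ℝ, 0 < p.2 → 0 < p.1 ^ 2 + p.2 ^ 2 := fun p hp => by positivity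
  -- the derivative
  have hfd : ∀ p : ℝ × ℝ, 0 < p.2 → ∀ v, fderiv ℝ h p v = -fderiv ℝ h (RFG_s p) (RFG_d p v) := by
    intro p hp v
    have hsp : 0 < (RFG_s p).2 := div_pos hp (hr p hp)
    have hd : DifferentiableAt ℝ h (RFG_s p) :=
      ((hh.contDiffAt (hU.mem_nhds hsp)).differentiableAt (by simp))
    have h1 : HasFDerivAt (h ∘ RFG_s) ((fderiv ℝ h (RFG_s p)).comp (RFG_d p)) p :=
      hd.hasFDerivAt.comp p (RFG_hd p (hr p hp).ne')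
    have h2 : (fun q => -h q) =ᶠ[nhds p] h ∘ RFG_s := by
      filter_upwards [hU.mem_nhds hp] with q hq
      exact (hs q.1 q.2 hq).symm
    have h3 : HasFDerivAt (fun q => -h q) ((fderiv ℝ h (RFG_s p)).comp (RFG_d p)) p :=
      h1.congr_of_eventuallyEq h2
    have h4 := h3.neg
    have h5 : HasFDerivAt h (-(fderiv ℝ h (RFG_s p)).comp (RFG_d p)) p := by
      refine h4.congr_of_eventuallyEq ?_
      filter_upwards with q
      simp
    rw [h5.fderiv]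
    rfl
  have hlin : ∀ (q : ℝ × ℝ) (a b : ℝ), fderiv ℝ h q (a, b) = a * px h q + b * py h q := by
    intro q a b
    have e : ((a, b) : ℝ × ℝ) = a • (1, 0) + b • (0, 1) := by
      simp
    rw [e, map_add, map_smul, map_smul]
    rfl
  have hEp : ∀ p ∈ A, E p ≤ |(RFG_d p).det| • E (RFG_s p) := by
    intro p hp
    obtain ⟨h1, h2, h3, h4, h5⟩ := hAp p hp
    have hr0 := hr p h2
    rw [RFG_det p hr0.ne', abs_neg, abs_of_pos (by positivity), smul_eq_mul]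
    have e1 : h p = -h (RFG_s p) := by
      have := hs p.1 p.2 h2
      show h (p.1, p.2) = _
      rw [← neg_neg (h (p.1, p.2)), ← this]
      rfl
    have e2 : px h p = -((p.2 ^ 2 - p.1 ^ 2) / (p.1 ^ 2 + p.2 ^ 2) ^ 2 * px h (RFG_s p) +
        -(2 * p.1 * p.2) / (p.1 ^ 2 + p.2 ^ 2) ^ 2 * py h (RFG_s p)) := by
      show fderiv ℝ h p (1, 0) = _
      rw [hfd p h2, RFG_d_apply]
      simp only [mul_one, mul_zero, add_zero]
      rw [hlin]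
    have e3 : py h p = -(-(2 * p.1 * p.2) / (p.1 ^ 2 + p.2 ^ 2) ^ 2 * px h (RFG_s p) +
        (p.1 ^ 2 - p.2 ^ 2) / (p.1 ^ 2 + p.2 ^ 2) ^ 2 * py h (RFG_s p)) := by
      show fderiv ℝ h p (0, 1) = _
      rw [hfd p h2, RFG_d_apply]
      simp only [mul_one, mul_zero, zero_add]
      rw [hlin]
    have e4 : px h p ^ 2 + py h p ^ 2 = 1 / (p.1 ^ 2 + p.2 ^ 2) ^ 2 *
        (px h (RFG_s p) ^ 2 + py h (RFG_s p) ^ 2) := by
      rw [e2, e3]
      field_simp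
      ring
    have e5 : 1 ≤ 1 / (p.1 ^ 2 + p.2 ^ 2) ^ 2 := by
      rw [le_div_iff₀ (by positivity), one_mul]
      nlinarith
    simp only [hE]
    rw [add_assoc, e4, e1, neg_sq, add_assoc, mul_add]
    have := mul_le_mul_of_nonneg_right e5 (sq_nonneg (h (RFG_s p)))
    linarith
  have hsub : RFG_s '' A ⊆ Dm := by
    rintro _ ⟨p, hp, rfl⟩
    obtain ⟨h1, h2, h3, h4, h5⟩ := hAp p hp
    have hr0 := hr p h2
    refine ⟨div_pos h1 hr0, ?_, div_pos h2 hr0, ?_⟩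
    · show p.1 / (p.1 ^ 2 + p.2 ^ 2) < 1 / 2
      rw [div_lt_div_iff₀ hr0 (by norm_num)]
      linarith
    · show 1 < (p.1 / (p.1 ^ 2 + p.2 ^ 2)) ^ 2 + (p.2 / (p.1 ^ 2 + p.2 ^ 2)) ^ 2
      have e : (p.1 / (p.1 ^ 2 + p.2 ^ 2)) ^ 2 + (p.2 / (p.1 ^ 2 + p.2 ^ 2)) ^ 2 =
          1 / (p.1 ^ 2 + p.2 ^ 2) := by
        field_simp
      rw [e, lt_div_iff₀ hr0, one_mul]
      exact h3
  have hinj : InjOn RFG_s A := by
    intro p hp q hq hpq
    rw [← RFG_inv p (hr p (hAp p hp).2.1).ne', ← RFG_inv q (hr q (hAp q hq).2.1).ne', hpq]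
  have hder : ∀ p ∈ A, HasFDerivWithinAt RFG_s (RFG_d p) A p := fun p hp =>
    (RFG_hd p (hr p (hAp p hp).2.1).ne').hasFDerivWithinAt
  have hi1 : IntegrableOn E (RFG_s '' A) := hint.mono_set hsub
  have hi2 : IntegrableOn (fun p => |(RFG_d p).det| • E (RFG_s p)) A :=
    (integrableOn_image_iff_integrableOn_abs_det_fderiv_smul volume hA hder hinj E).mp hi1
  have hAU : A ⊆ {p : ℝ × ℝ | 0 < p.2} := fun p hp => (hAp p hp).2.1
  have hcE : ContinuousOn E {p : ℝ × ℝ | 0 < p.2} := by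
    have hf : ContinuousOn (fderiv ℝ h) {p : ℝ × ℝ | 0 < p.2} :=
      hh.continuousOn_fderiv_of_isOpen hU (by simp)
    have hx : ContinuousOn (px h) {p : ℝ × ℝ | 0 < p.2} := hf.clm_apply continuousOn_const
    have hy : ContinuousOn (py h) {p : ℝ × ℝ | 0 < p.2} := hf.clm_apply continuousOn_const
    exact ((hh.continuousOn.pow 2).add (hx.pow 2)).add (hy.pow 2)
  have hmE : AEStronglyMeasurable E (volume.restrict A) :=
    (hcE.mono hAU).aestronglyMeasurable hA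
  have hi3 : IntegrableOn E A := by
    refine Integrable.mono' hi2 hmE ?_
    filter_upwards [ae_restrict_mem hA] with p hp
    rw [Real.norm_of_nonneg (hE0 p)]
    exact hEp p hp
  refine ⟨hi3, ?_⟩
  have hDm : MeasurableSet Dm := by
    unfold Dm
    measurability
  calc ∫ p in A, E p ≤ ∫ p in A, |(RFG_d p).det| • E (RFG_s p) :=
        setIntegral_mono_on hi3 hi2 hA hEp
    _ = ∫ p in RFG_s '' A, E p :=
        (integral_image_eq_integral_abs_det_fderiv_smul volume hA hder hinj E).symm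
    _ ≤ ∫ p in Dm, E p := setIntegral_mono_set hint
        (Filter.Eventually.of_forall fun p => hE0 p) (LE.le.eventuallyLE hsub)
    _ ≤ 4 * ∫ p in Dm, E p := by
        have := setIntegral_nonneg (μ := volume) hDm (fun p _ => hE0 p)
        linarith

end

end SF
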